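import Pool.Agent.TS.Defs
import Pool.Agent.LD.L.Fld
import Pool.Agent.LD.L.Deg
import Pool.Agent.MD.L.Sq

/-!
# TS/V-Sub: fields of subgroups and even local degrees

`sub_of_stb` is Galois theory: the image of `ψ1` is fixed by the fixing group of the image of `ψ2`. `evG_stb` and `evV_quad` are the
multiplicativity of the local degree in towers; `exists_nf` is `exists_fld` over `ℚ`.
-/

namespace Pool.Agent.TS

open NumberField IsDedekindDomain Pool.Agent.HWR Pool.Agent.QD Pool.Agent.H73.DU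
  Pool.Agent.H73.AL Pool.Agent.LD

private theorem tsv_alg (inst : Algebra ℚ (AlgebraicClosure ℚ)) :
    IsAlgClosure ℚ (AlgebraicClosure ℚ) := by
  have h : inst = AlgebraicClosure.instAlgebra ℚ := Subsingleton.elim _ _
  subst h
  infer_instance

private theorem tsv_gal : IsGalois ℚ (AlgebraicClosure ℚ) := by
  have : IsAlgClosure ℚ (AlgebraicClosure ℚ) := tsv_alg inferInstance
  have : Normal ℚ (AlgebraicClosure ℚ) := IsAlgClosure.normal ℚ _
  exact {}

private theorem tsv_factor {F L : Type} [Field F] [Field L] (ι : L →+* AlgebraicClosure ℚ)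
    (ψ : F →+* AlgebraicClosure ℚ) (h : ∀ x, ψ x ∈ ι.range) : ∃ φ : F →+* L, ι.comp φ = ψ := by
  let e : L ≃+* ι.range := RingEquiv.ofBijective ι.rangeRestrict
    ⟨fun a b hab => ι.injective (congrArg Subtype.val hab), ι.rangeRestrict_surjective⟩
  refine ⟨e.symm.toRingHom.comp (ψ.codRestrict ι.range h), ?_⟩
  ext x
  obtain ⟨y, hy⟩ := e.surjective (ψ.codRestrict ι.range h x)
  have h1 : e.symm (ψ.codRestrict ι.range h x) = y := by rw [← hy, RingEquiv.symm_apply_apply]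
  show ι (e.symm (ψ.codRestrict ι.range h x)) = ψ x
  rw [h1]
  have h2 := congrArg Subtype.val hy
  exact h2

theorem sub_of_stb (F1 F2 : NF) (ψ1 : F1.F →+* AlgebraicClosure ℚ)
    (ψ2 : F2.F →+* AlgebraicClosure ℚ) (h : stb ψ2 ≤ stb ψ1) :
    ∃ j : F1.F →+* F2.F, ψ2.comp j = ψ1 := by
  have := tsv_gal
  refine tsv_factor ψ2 ψ1 fun x => ?_
  let E : IntermediateField ℚ (AlgebraicClosure ℚ) := ψ2.toRatAlgHom.fieldRange
  have h1 : ψ1 x ∈ IntermediateField.fixedField E.fixingSubgroup := by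
    rintro ⟨g, hg⟩
    have h2 : g ∈ stb ψ2 := by
      refine MulAction.mem_stabilizer_iff.2 ?_
      ext y
      rw [smul_emb]
      exact (IntermediateField.mem_fixingSubgroup_iff E g).1 hg (ψ2 y) ⟨y, rfl⟩
    have h3 := MulAction.mem_stabilizer_iff.1 (h h2)
    exact RingHom.congr_fun h3 x
  rw [InfiniteGalois.fixedField_fixingSubgroup E] at h1
  obtain ⟨y, hy⟩ := h1
  exact ⟨y, hy⟩

/-- The place below. -/
private theorem tsv_below {K L : Type} [Field K] [NumberField K] [Field L] [NumberField L]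
    [Algebra K L] (w : HeightOneSpectrum (𝓞 L)) :
    ∃ v : HeightOneSpectrum (𝓞 K), Over v w ∧
      ∀ p : ℕ, ((p : ℕ) : 𝓞 L) ∈ w.asIdeal → ((p : ℕ) : 𝓞 K) ∈ v.asIdeal := by
  have hw : w.asIdeal.IsPrime := w.isPrime
  refine ⟨⟨w.asIdeal.comap (algebraMap (𝓞 K) (𝓞 L)), Ideal.comap_isPrime _ _,
    Ideal.IsIntegral.comap_ne_bot _ w.ne_bot⟩, rfl, fun p hp => ?_⟩
  show algebraMap (𝓞 K) (𝓞 L) (p : 𝓞 K) ∈ w.asIdeal
  rw [map_natCast]
  exact hp

/-- Even local degrees are inherited. -/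
private theorem tsv_tower {V T : Finset ℕ} {K L : Type} [Field K] [NumberField K] [Field L]
    [NumberField L] [Algebra K L] (h : ∀ p ∈ V, p.Prime → p ∉ T →
      ∀ (v : HeightOneSpectrum (𝓞 K)) (w : HeightOneSpectrum (𝓞 L)),
        ((p : ℕ) : 𝓞 K) ∈ v.asIdeal → Over v w → 2 ∣ locDeg ℚ v ∨ 2 ∣ locDeg K w) :
    EvV V T L := by
  intro p hp hpp hpT w hw
  obtain ⟨v, hv, hvp⟩ := tsv_below (K := K) w
  rw [locDeg_tower ℚ K L v w hv]
  rcases h p hp hpp hpT v w (hvp p hw) hv with h1 | h1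
  · exact Dvd.dvd.mul_right h1 _
  · exact Dvd.dvd.mul_left h1 _

theorem evG_stb {V T : Finset ℕ} (F : NF) (ψ : F.F →+* AlgebraicClosure ℚ)
    (h : EvV V T F.F) : EvG V T (stb ψ) := by
  intro F' ψ' hle
  obtain ⟨j, -⟩ := sub_of_stb F F' ψ ψ' hle
  let alg : Algebra F.F F'.F := j.toAlgebra
  exact tsv_tower (K := F.F) fun p hp hpp hpT v w hv _ => Or.inl (h p hp hpp hpT v hv)

theorem evV_quad {V T : Finset ℕ} {K : Type} [Field K] [NumberField K] (L : Type) [Field L]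
    [NumberField L] [Algebra K L] (x : Kˣ) (θ : L) (hθ : θ ^ 2 = algebraMap K L (x : K))
    (hx : ∀ p ∈ V, p.Prime → p ∉ T → ∀ v : HeightOneSpectrum (𝓞 K),
      ((p : ℕ) : 𝓞 K) ∈ v.asIdeal → ¬ LSq v x) : EvV V T L :=
  tsv_tower (K := K) fun p hp hpp hpT v w hv hvw =>
    Or.inr (two_dvd L x θ hθ v (hx p hp hpp hpT v hv) w hvw)

theorem exists_nf (H : Subgroup GQ) (hH : IsOpen (H : Set GQ)) :
    ∃ (F : NF) (ψ : F.F →+* AlgebraicClosure ℚ), stb ψ = H ∧ mark F.F = pc H ∧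
      Module.finrank ℚ F.F = H.index := by
  have htop : stb (algebraMap ℚ (AlgebraicClosure ℚ)) = ⊤ := by
    rw [eq_top_iff]
    intro g _
    exact MulAction.mem_stabilizer_iff.2 (Subsingleton.elim _ _)
  obtain ⟨F, alg, ψ, -, h1, h2, h3⟩ := exists_fld (NF.mk ℚ) (algebraMap ℚ (AlgebraicClosure ℚ)) H hH
    (htop ▸ le_top) (n := H.index) (by rw [htop, Subgroup.index_top, mul_one])
  refine ⟨F, ψ, h1, h2, ?_⟩
  have h4 : alg = DivisionRing.toRatAlgebra := Subsingleton.elim _ _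
  subst h4
  exact h3

end Pool.Agent.TS
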