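import Pool.Agent.TS.V.Sub
import Pool.Agent.MD.L.V4
import Pool.Agent.MD.F.Cho
import Pool.Agent.MD.P.Defs
import Pool.Agent.LD.L.Pl

/-!
# TS/V-V4: twice a field, quadratic extensions (paper section 6)

PLAN.  `W` = places of `K'` (`exists_nf` for `H'`) over the primes `p ∈ V`, `p ∉ T` (finite); nonempty by `hne`; away from `T` (a place over `p` contains no other prime).
`two_mem`: `choose2` (MD/F/Cho) gives `a`, `b`; none of `a`, `b`, `a b` is a square (`W` nonempty, `LSq_sq`); fields `Fa`, `Fb`, `Fc`, `F4` (`qf_nonempty`, QD/In/Def; compare `biquad` in MD/F/Main), `rel_v4`; `mark F = pc (stb ψ)` (`mark_eq_pc`) for any embedding, `stb` open (`stab_open`), `index = finrank`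
(`exists_nf`-like: `pc_bot`, `Embeddings.card`; e.g. `fr_of_mark` in LD/L/Fld); `evV_quad` for `Fa`, `Fb`, `Fc`; `F4` contains `Fa`, so it is `EvV` too (`sub`: `evG_stb` for `Fa` with an embedding extending, or `evV_quad` over `Fa`: take `evG_stb` and an embedding of `F4` restricted to `Fa`, `stb` is smaller).
Degrees `2 index H'` and `4 index H'`.
`idx2_mem`: `K'` of `H'`, `F'` of `H` over `K'` (`exists_fld` with `n = 2`), `exists_root` (MD/L/Sq): `F' = K'(θ)`, `θ² = y`; `choose1` with `b = y`: `a`; `Fa`, `Fc` (of `a y`), `F4 = Fa(√y)`; `rel_v4` with `Fb = F'`: `pc H = 2 pc H' + F4 - Fa - Fc` on `famT T`, and `two_mem`.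
-/

namespace Pool.Agent.TS

open NumberField IsDedekindDomain Pool.Agent.HWR Pool.Agent.QD Pool.Agent.QD.In
  Pool.Agent.H73.DU Pool.Agent.H73.AL Pool.Agent.LD Pool.Agent.MD

private theorem v4t_fr (F : Type) [Field F] [NumberField F] (H : Subgroup GQ)
    (hmark : mark F = pc H) : Module.finrank ℚ F = H.index := by
  have h3 := congrFun hmark ⊥
  rw [pc_bot, mark, pch_bot] at h3
  have h4 := NumberField.Embeddings.card F (AlgebraicClosure ℚ)
  rw [← Nat.card_eq_fintype_card] at h4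
  rw [h4] at h3
  exact_mod_cast h3

private theorem v4t_places (K : Type) [Field K] [NumberField K] (V T : Finset ℕ)
    (hTp : ∀ p ∈ T, p.Prime) : ∃ W : Finset (HeightOneSpectrum (𝓞 K)),
      (∀ w ∈ W, Away K T w) ∧ ∀ p ∈ V, p.Prime → p ∉ T → ∀ v : HeightOneSpectrum (𝓞 K),
        ((p : ℕ) : 𝓞 K) ∈ v.asIdeal → v ∈ W := by
  classical
  have hfin := not_away_finite K (V.filter fun p => p.Prime ∧ p ∉ T)
    (fun p hp => (Finset.mem_filter.1 hp).2.1)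
  refine ⟨hfin.toFinset, fun w hw l hl hlw => ?_, fun p hpV hp hpT v hv => ?_⟩
  · have h1 : ¬ Away K (V.filter fun p => p.Prime ∧ p ∉ T) w := hfin.mem_toFinset.1 hw
    unfold Away at h1
    push Not at h1
    obtain ⟨p, hp, hpw⟩ := h1
    obtain ⟨-, hpp, hpT⟩ := Finset.mem_filter.1 hp
    have hne : p ≠ l := fun h => hpT (h ▸ hl)
    have hcop : IsCoprime (p : ℤ) (l : ℤ) :=
      Nat.isCoprime_iff_coprime.2 ((Nat.coprime_primes hpp (hTp l hl)).2 hne)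
    obtain ⟨x, y, hxy⟩ := hcop
    have h2 : ((x : ℤ) : 𝓞 K) * ((p : ℕ) : 𝓞 K) + ((y : ℤ) : 𝓞 K) * ((l : ℕ) : 𝓞 K) = 1 := by
      exact_mod_cast congrArg (fun z : ℤ => (z : 𝓞 K)) hxy
    have h3 : (1 : 𝓞 K) ∈ w.asIdeal := by
      rw [← h2]
      exact w.asIdeal.add_mem (w.asIdeal.mul_mem_left _ hpw) (w.asIdeal.mul_mem_left _ hlw)
    exact w.isPrime.ne_top ((Ideal.eq_top_iff_one _).2 h3)
  · refine hfin.mem_toFinset.2 ?_
    intro h
    exact h p (Finset.mem_filter.2 ⟨hpV, hp, hpT⟩) hv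

private theorem v4t_mem {V T : Finset ℕ} {n B : ℕ} (F : NF) (ψ : F.F →+* AlgebraicClosure ℚ)
    (hev : EvG V T (stb ψ)) (hn : n ∣ Module.finrank ℚ F.F) (hB : Module.finrank ℚ F.F ≤ B) :
    mark F.F ∈ CL V T n B := by
  have hm : mark F.F = pc (stb ψ) := mark_eq_pc F.F ψ
  have hf : Module.finrank ℚ F.F = (stb ψ).index := v4t_fr F.F (stb ψ) hm
  rw [hf] at hn hB
  exact AddSubgroup.subset_closure (Or.inl ⟨stb ψ, stab_open F.F ψ, hn, hB, hev, hm⟩)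

private theorem v4t_zero {V T : Finset ℕ} {n B : ℕ} {f : Subgroup GQ → ℤ}
    (h : ∀ U ∈ famT T, f U = 0) : f ∈ CL V T n B :=
  AddSubgroup.subset_closure (Or.inr h)

private theorem v4t_stb {K F : Type} [Field K] [Field F] [Algebra K F]
    (ψ : F →+* AlgebraicClosure ℚ) : stb ψ ≤ stb (ψ.comp (algebraMap K F)) := by
  intro g hg
  have h1 : g • ψ = ψ := MulAction.mem_stabilizer_iff.1 hg
  refine MulAction.mem_stabilizer_iff.2 ?_
  ext x
  exact RingHom.congr_fun h1 (algebraMap K F x)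

private theorem v4t_quad {V T : Finset ℕ} {n B : ℕ} (K : NF) {x : (K.F)ˣ} (q : QF K.F x)
    (hx : ∀ p ∈ V, p.Prime → p ∉ T → ∀ v : HeightOneSpectrum (𝓞 K.F),
      ((p : ℕ) : 𝓞 K.F) ∈ v.asIdeal → ¬ LSq v x)
    (hn : n ∣ 2 * Module.finrank ℚ K.F) (hB : 2 * Module.finrank ℚ K.F ≤ B) :
    mark q.L ∈ CL V T n B := by
  obtain ⟨ψ⟩ : Nonempty (q.L →+* AlgebraicClosure ℚ) := inferInstance
  have hev : EvV V T q.L := evV_quad q.L x q.θ q.sq hx
  have hd : Module.finrank ℚ q.L = 2 * Module.finrank ℚ K.F := by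
    rw [← Module.finrank_mul_finrank ℚ K.F q.L, q.deg, mul_comm]
  exact v4t_mem ⟨q.L⟩ ψ (evG_stb ⟨q.L⟩ ψ hev) (by rw [hd]; exact hn) (by rw [hd]; exact hB)

private theorem v4t_core {V T : Finset ℕ} {n B : ℕ} (K Fb : NF) [Algebra K.F Fb.F]
    (a b : (K.F)ˣ) (ha : ¬ IsSquare a) (hb : ¬ IsSquare b) (hab : ¬ IsSquare (a * b))
    (θb : Fb.F) (db : Module.finrank K.F Fb.F = 2)
    (sb : θb ^ 2 = algebraMap K.F Fb.F (b : K.F))
    (haT : ∀ v : HeightOneSpectrum (𝓞 K.F), ¬ Away K.F T v → LSq v a)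
    (hVa : ∀ p ∈ V, p.Prime → p ∉ T → ∀ v : HeightOneSpectrum (𝓞 K.F),
      ((p : ℕ) : 𝓞 K.F) ∈ v.asIdeal → ¬ LSq v a)
    (hVab : ∀ p ∈ V, p.Prime → p ∉ T → ∀ v : HeightOneSpectrum (𝓞 K.F),
      ((p : ℕ) : 𝓞 K.F) ∈ v.asIdeal → ¬ LSq v (a * b))
    (hn : n ∣ 2 * Module.finrank ℚ K.F) (hB : 4 * Module.finrank ℚ K.F ≤ B) :
    (2 : ℤ) • mark K.F - mark Fb.F ∈ CL V T n B := by
  obtain ⟨qa⟩ := qf_nonempty ha
  obtain ⟨qc⟩ := qf_nonempty hab
  have hsq : ∀ c : (K.F)ˣ, ¬ IsSquare c → ¬ IsSquare (c : K.F) := by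
    rintro c hc ⟨r, hr⟩
    have hr0 : r ≠ 0 := by
      rintro rfl
      exact c.ne_zero (by rw [hr, mul_zero])
    exact hc ⟨Units.mk0 r hr0, Units.ext hr⟩
  have hb4 : ¬ IsSquare (algebraMap K.F qa.L (b : K.F)) :=
    not_sq_quad (hsq a ha) (hsq b hb) (by have := hsq _ hab; rwa [Units.val_mul] at this)
      qa.θ qa.sq qa.deg
  have hb4' : ¬ IsSquare (Units.map (algebraMap K.F qa.L : K.F →* qa.L) b) := by
    rintro ⟨r, hr⟩
    exact hb4 ⟨(r : qa.L), by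
      have := congrArg Units.val hr
      rwa [Units.val_mul] at this⟩
  obtain ⟨q4⟩ := qf_nonempty hb4'
  have hrel := rel_v4 T K ⟨qa.L⟩ Fb ⟨qc.L⟩ ⟨q4.L⟩ a b ha hb hab qa.θ θb qc.θ q4.θ qa.deg db
    qc.deg q4.deg qa.sq sb qc.sq q4.sq haT
  have h2 : 2 * Module.finrank ℚ K.F ≤ B := by omega
  have ma : mark qa.L ∈ CL V T n B := v4t_quad K qa hVa hn h2
  have mc : mark qc.L ∈ CL V T n B := v4t_quad K qc hVab hn h2
  have m4 : mark q4.L ∈ CL V T n B := by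
    obtain ⟨ψ⟩ : Nonempty (q4.L →+* AlgebraicClosure ℚ) := inferInstance
    have hev : EvV V T qa.L := evV_quad qa.L a qa.θ qa.sq hVa
    have hd : Module.finrank ℚ q4.L = 4 * Module.finrank ℚ K.F := by
      rw [← Module.finrank_mul_finrank ℚ qa.L q4.L, q4.deg,
        ← Module.finrank_mul_finrank ℚ K.F qa.L, qa.deg]
      ring
    refine v4t_mem ⟨q4.L⟩ ψ ((evG_stb ⟨qa.L⟩ (ψ.comp (algebraMap qa.L q4.L)) hev).mono
      (v4t_stb (K := qa.L) ψ)) ?_ ?_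
    · rw [hd]
      have e : 4 * Module.finrank ℚ K.F = 2 * (2 * Module.finrank ℚ K.F) := by ring
      rw [e]
      exact Dvd.dvd.mul_left hn 2
    · rw [hd]
      exact hB
  have hz : (2 : ℤ) • mark K.F + mark q4.L - (mark qa.L + mark Fb.F + mark qc.L) ∈
      CL V T n B := by
    refine v4t_zero fun U hU => ?_
    have h := hrel U hU
    simp only [List.map_cons, List.map_nil, List.sum_cons, List.sum_nil, add_zero] at h
    simp only [Pi.sub_apply, Pi.add_apply, Pi.smul_apply, smul_eq_mul]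
    linarith
  have e : (2 : ℤ) • mark K.F - mark Fb.F =
      ((2 : ℤ) • mark K.F + mark q4.L - (mark qa.L + mark Fb.F + mark qc.L)) - mark q4.L +
        mark qa.L + mark qc.L := by
    abel
  rw [e]
  exact add_mem (add_mem (sub_mem hz m4) ma) mc

private theorem v4t_nsq {K : Type} [Field K] [NumberField K] {w : HeightOneSpectrum (𝓞 K)}
    {x : Kˣ} (hx : ¬ LSq w x) : ¬ IsSquare x := by
  rintro ⟨y, hy⟩
  apply hx
  rw [hy, ← pow_two]
  exact LSq_sq w y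

theorem two_mem {V T : Finset ℕ} (hTp : ∀ p ∈ T, p.Prime) (h2 : 2 ∈ T)
    (hne : ∃ p ∈ V, p.Prime ∧ p ∉ T) {n B : ℕ} (H' : Subgroup GQ) (hH' : IsOpen (H' : Set GQ))
    (hn : n ∣ 2 * H'.index) (hB : 4 * H'.index ≤ B) : (2 : ℤ) • pc H' ∈ CL V T n B := by
  obtain ⟨K, ψ, -, hmk, hfr⟩ := exists_nf H' hH'
  obtain ⟨W, hW, hW'⟩ := v4t_places K.F V T hTp
  obtain ⟨a, b, haT, hab⟩ := choose2 hTp h2 W hW
  obtain ⟨p, hpV, hp, hpT⟩ := hne
  have := Fact.mk hp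
  obtain ⟨w, hw⟩ := exists_isPl p ψ
  have hwW : w ∈ W := hW' p hpV hp hpT w (isPl_mem hw)
  obtain ⟨w1, w2, w3⟩ := hab w hwW
  obtain ⟨qb⟩ := qf_nonempty (v4t_nsq w2)
  rw [← hfr] at hn hB
  have h1 : (2 : ℤ) • mark K.F - mark qb.L ∈ CL V T n B :=
    v4t_core K ⟨qb.L⟩ a b (v4t_nsq w1) (v4t_nsq w2) (v4t_nsq w3) qb.θ qb.deg qb.sq haT
      (fun p hpV hp hpT v hv => (hab v (hW' p hpV hp hpT v hv)).1)
      (fun p hpV hp hpT v hv => (hab v (hW' p hpV hp hpT v hv)).2.2) hn hB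
  have h3 : mark qb.L ∈ CL V T n B := v4t_quad K qb
    (fun p hpV hp hpT v hv => (hab v (hW' p hpV hp hpT v hv)).2.1) hn (by omega)
  have h4 := add_mem h1 h3
  rw [sub_add_cancel, hmk] at h4
  exact h4

theorem idx2_mem {V T : Finset ℕ} (hTp : ∀ p ∈ T, p.Prime) (h2 : 2 ∈ T)
    (hne : ∃ p ∈ V, p.Prime ∧ p ∉ T) {n B : ℕ} (H H' : Subgroup GQ) (hH : IsOpen (H : Set GQ))
    (hHH' : H ≤ H') (hi : H.relIndex H' = 2) (hn : n ∣ H.index) (hB : 2 * H.index ≤ B) :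
    pc H ∈ CL V T n B := by
  have hH' : IsOpen (H' : Set GQ) := Subgroup.isOpen_mono hHH' hH
  have hidx : H.index = 2 * H'.index := by
    rw [← Subgroup.relIndex_mul_index hHH', hi]
  have h0 : (2 : ℤ) • pc H' ∈ CL V T n B :=
    two_mem hTp h2 hne H' hH' (by rw [← hidx]; exact hn) (by omega)
  obtain ⟨K, ψ, hst, hmk, hfr⟩ := exists_nf H' hH'
  obtain ⟨Fb, hal, ψb, -, -, hmb, hdb⟩ := exists_fld K ψ H hH (by rw [hst]; exact hHH')
    (n := 2) (by rw [hst]; exact hidx)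
  obtain ⟨b, θb, hb, hθb⟩ := exists_root (K := K.F) Fb.F hdb
  obtain ⟨W, hW, hW'⟩ := v4t_places K.F V T hTp
  obtain ⟨a, haT, hab⟩ := choose1 hTp h2 W hW b
  obtain ⟨p, hpV, hp, hpT⟩ := hne
  have := Fact.mk hp
  obtain ⟨w, hw⟩ := exists_isPl p ψ
  have hwW : w ∈ W := hW' p hpV hp hpT w (isPl_mem hw)
  obtain ⟨w1, w2⟩ := hab w hwW
  have h1 : (2 : ℤ) • mark K.F - mark Fb.F ∈ CL V T n B :=
    v4t_core K Fb a b (v4t_nsq w1) hb (v4t_nsq w2) θb hdb hθb haT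
      (fun p hpV hp hpT v hv => (hab v (hW' p hpV hp hpT v hv)).1)
      (fun p hpV hp hpT v hv => (hab v (hW' p hpV hp hpT v hv)).2)
      (by rw [hfr, ← hidx]; exact hn) (by rw [hfr]; omega)
  rw [hmk, hmb] at h1
  have h3 := sub_mem h0 h1
  rwa [sub_sub_cancel] at h3

end Pool.Agent.TS
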